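import Pool.Agent.Y284.OM.Open

/-!
MP_64150f_an, Q2 (and hence Q1): for every compact Hausdorff space of covering dimension at most
one, multiplication in the complex algebra `C(X)` is uniformly open.

`CovDimLE X n` (from `Pool.Agent.Y284.OM.Dense`) says that the Lebesgue covering dimension of `X`
is at most `n`: every finite open cover of `X` has a finite open refinement covering `X` such that
every point of `X` lies in at most `n + 1` members of the refinement.
-/

namespace Pool.Agent.Results.MP_64150f_an.UniformlyOpen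

open Pool.Agent.Y284.OM
open scoped Pointwise

/-- Let `X` be a compact Hausdorff space with `dim X ≤ 1`. Then for all `ε > 0` and all
`a, b ∈ C(X)` one has `B(ab, ε² / 4096) ⊆ B(a, ε) · B(b, ε)`; the constant depends neither on
`a, b` nor on `X`. In particular multiplication is uniformly open, and it is an open map. -/
theorem result.{u} : ∀ (X : Type u) [TopologicalSpace X] [CompactSpace X] [T2Space X],
    CovDimLE X 1 →
      (∀ ε : ℝ, 0 < ε → ∀ a b : C(X, ℂ),
        Metric.ball (a * b) (ε ^ 2 / 4096) ⊆ Metric.ball a ε * Metric.ball b ε) ∧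
      IsOpenMap (fun p : C(X, ℂ) × C(X, ℂ) => p.1 * p.2) := by
  intro X _ _ _ hX
  have hd : DenseNV X := fun f ε hε => exists_nonvanishing hX f hε
  have h1 : ∀ ε : ℝ, 0 < ε → ∀ a b : C(X, ℂ),
      Metric.ball (a * b) (ε ^ 2 / 4096) ⊆ Metric.ball a ε * Metric.ball b ε := by
    intro ε hε a b h hh
    rw [Metric.mem_ball, dist_eq_norm] at hh
    obtain ⟨f', g', hf, hg, hfg⟩ := factor hd a b h hε hh
    refine Set.mem_mul.2 ⟨f', ?_, g', ?_, hfg⟩
    · rw [Metric.mem_ball, dist_eq_norm]; exact hf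
    · rw [Metric.mem_ball, dist_eq_norm]; exact hg
  refine ⟨h1, ?_⟩
  rw [IsOpenMap]
  intro U hU
  rw [Metric.isOpen_iff]
  rintro _ ⟨⟨a, b⟩, hab, rfl⟩
  obtain ⟨ε, hε, hball⟩ := Metric.isOpen_iff.1 hU (a, b) hab
  refine ⟨ε ^ 2 / 4096, by positivity, ?_⟩
  intro h hh
  obtain ⟨f', hf', g', hg', hfg⟩ := Set.mem_mul.1 (h1 ε hε a b hh)
  refine ⟨(f', g'), hball ?_, hfg⟩
  rw [Metric.mem_ball, Prod.dist_eq]
  exact max_lt hf' hg'

end Pool.Agent.Results.MP_64150f_an.UniformlyOpen
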